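import Pool.Agent.Q50.CF.Defs
import Pool.Agent.Q50.FP.Core

/-!
# Forms and matrices in coordinates
-/

set_option maxHeartbeats 4000000
set_option synthInstance.maxHeartbeats 400000

namespace Pool.Agent.Q50.CF

open Pool.Agent.H204R3.SP (Kills kills_bracket)

section kills

variable {K : Type} [Field K] {κ : Type} [Fintype κ] [DecidableEq κ] {n : ℕ}

/-- the matrix `x` kills the form with the coefficients `f` -/
def KF (x : Fin n × Fin n → K) (f : (κ → Fin n) → K) : Prop :=
  ∀ J : κ → Fin n, ∑ i, ∑ a, x (a, J i) * f (Function.update J i a) = 0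

/-- the derivation -/
noncomputable def dm (x : Module.End K (Fin n → K))
    (φ : MultilinearMap K (fun _ : κ => Fin n → K) K) :
    MultilinearMap K (fun _ : κ => Fin n → K) K :=
  ∑ k, φ.compLinearMap (Function.update (fun _ => LinearMap.id) k x)

theorem dm_apply (x : Module.End K (Fin n → K))
    (φ : MultilinearMap K (fun _ : κ => Fin n → K) K) (v : κ → Fin n → K) :
    dm x φ v = ∑ k, φ (Function.update v k (x (v k))) := by
  unfold dm
  rw [_root_.sum_apply]
  refine Finset.sum_congr rfl fun k _ => ?_
  rw [MultilinearMap.compLinearMap_apply]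
  congr 1
  funext i
  by_cases h : i = k
  · subst h
    rw [Function.update_self, Function.update_self]
  · rw [Function.update_of_ne h, Function.update_of_ne h]
    rfl

theorem kills_dm (x : Module.End K (Fin n → K))
    (φ : MultilinearMap K (fun _ : κ => Fin n → K) K) : Kills x φ ↔ dm x φ = 0 := by
  constructor
  · intro h
    refine MultilinearMap.ext fun v => ?_
    rw [dm_apply]
    exact h v
  · intro h v
    rw [← dm_apply, h]
    rfl

theorem apply_single (x : Module.End K (Fin n → K)) (j : Fin n) :
    x (Pi.single j 1) = ∑ a, LinearMap.toMatrix' x a j • (Pi.single a 1 : Fin n → K) := by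
  funext b
  rw [Finset.sum_apply, Finset.sum_eq_single b]
  · rw [Pi.smul_apply, Pi.single_eq_same, smul_eq_mul, mul_one, LinearMap.toMatrix'_apply]
  · intro a _ hab
    rw [Pi.smul_apply, Pi.single_eq_of_ne (Ne.symm hab), smul_zero]
  · intro h
    exact absurd (Finset.mem_univ _) h

theorem dm_single (x : Module.End K (Fin n → K))
    (φ : MultilinearMap K (fun _ : κ => Fin n → K) K) (J : κ → Fin n) :
    dm x φ (fun i => Pi.single (J i) 1) =
      ∑ i, ∑ a, LinearMap.toMatrix' x a (J i) * coeff φ (Function.update J i a) := by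
  rw [dm_apply]
  refine Finset.sum_congr rfl fun i _ => ?_
  rw [apply_single, MultilinearMap.map_update_sum]
  refine Finset.sum_congr rfl fun a _ => ?_
  rw [MultilinearMap.map_update_smul, smul_eq_mul]
  congr 1
  unfold coeff
  congr 1
  funext l
  by_cases h : l = i
  · subst h
    rw [Function.update_self, Function.update_self]
  · rw [Function.update_of_ne h, Function.update_of_ne h]

theorem kills_iff (x : Module.End K (Fin n → K))
    (φ : MultilinearMap K (fun _ : κ => Fin n → K) K) :
    Kills x φ ↔ KF (entries x) (coeff φ) := by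
  have h0 : entries x = fun p => LinearMap.toMatrix' x p.1 p.2 := by
    funext p
    rw [LinearMap.toMatrix'_apply]
    rfl
  rw [kills_dm, h0]
  constructor
  · intro h J
    have h1 := dm_single x φ J
    rw [h] at h1
    exact h1.symm
  · intro h
    refine Module.Basis.ext_multilinear (fun _ => Pi.basisFun K (Fin n)) fun J => ?_
    have h1 := h J
    change ∑ i, ∑ a, LinearMap.toMatrix' x a (J i) * coeff φ (Function.update J i a) = 0 at h1
    rw [← dm_single] at h1
    simpa only [Pi.basisFun_apply, _root_.zero_apply] using h1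

/-- the form with given coefficients -/
noncomputable def mk (f : (κ → Fin n) → K) : MultilinearMap K (fun _ : κ => Fin n → K) K :=
  ∑ J, f J • (MultilinearMap.mkPiAlgebra K κ K).compLinearMap fun i => LinearMap.proj (J i)

theorem coeff_mk (f : (κ → Fin n) → K) : coeff (mk f) = f := by
  funext J
  unfold coeff mk
  rw [_root_.sum_apply, Finset.sum_eq_single J]
  · rw [_root_.smul_apply, MultilinearMap.compLinearMap_apply,
      MultilinearMap.mkPiAlgebra_apply]
    simp
  · intro K _ hK
    rw [_root_.smul_apply, MultilinearMap.compLinearMap_apply,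
      MultilinearMap.mkPiAlgebra_apply]
    obtain ⟨i, hi⟩ := Function.ne_iff.1 hK
    rw [Finset.prod_eq_zero (Finset.mem_univ i), smul_zero]
    simp [hi]
  · intro h
    exact absurd (Finset.mem_univ _) h

/-- the equation of `KF` as a linear function of the matrix -/
noncomputable def eqx (f : (κ → Fin n) → K) (J : κ → Fin n) : (Fin n × Fin n → K) →ₗ[K] K :=
  ∑ i, ∑ a, f (Function.update J i a) • LinearMap.proj (a, J i)

theorem eqx_apply (f : (κ → Fin n) → K) (J : κ → Fin n) (x : Fin n × Fin n → K) :
    eqx f J x = ∑ i, ∑ a, x (a, J i) * f (Function.update J i a) := by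
  unfold eqx
  simp only [LinearMap.sum_apply, LinearMap.smul_apply, LinearMap.proj_apply, smul_eq_mul]
  exact Finset.sum_congr rfl fun i _ => Finset.sum_congr rfl fun a _ => mul_comm _ _

/-- the equation of `KF` as a linear function of the form -/
noncomputable def eqf (x : Fin n × Fin n → K) (J : κ → Fin n) : ((κ → Fin n) → K) →ₗ[K] K :=
  ∑ i, ∑ a, x (a, J i) • LinearMap.proj (Function.update J i a)

theorem eqf_apply (f : (κ → Fin n) → K) (J : κ → Fin n) (x : Fin n × Fin n → K) :
    eqf x J f = ∑ i, ∑ a, x (a, J i) * f (Function.update J i a) := by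
  unfold eqf
  simp only [LinearMap.sum_apply, LinearMap.smul_apply, LinearMap.proj_apply, smul_eq_mul]

theorem kf_eqx {f : (κ → Fin n) → K} {x : Fin n × Fin n → K} :
    KF x f ↔ ∀ J, eqx f J x = 0 := by
  simp only [eqx_apply]
  rfl

theorem kf_eqf {f : (κ → Fin n) → K} {x : Fin n × Fin n → K} :
    KF x f ↔ ∀ J, eqf x J f = 0 := by
  simp only [eqf_apply]
  rfl

end kills

section rational

variable {K : Type} [Field K] [CharZero K] {ι : Type}

/-- a rational vector as a vector over `K` -/
def cast (K : Type) [Field K] {ι : Type} (w : ι → ℚ) : ι → K := fun i => (w i : K)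

theorem cast_mem {W : Submodule ℚ (ι → ℚ)} {w : ι → ℚ} (hw : w ∈ W) : cast K w ∈ ext K W :=
  Submodule.subset_span ⟨w, hw, rfl⟩

theorem ext_le {W : Submodule ℚ (ι → ℚ)} {T : Submodule K (ι → K)} (h : ∀ w ∈ W, cast K w ∈ T) :
    ext K W ≤ T := by
  refine Submodule.span_le.2 ?_
  rintro _ ⟨w, hw, rfl⟩
  exact h w hw

theorem ext_mono {W W' : Submodule ℚ (ι → ℚ)} (h : W ≤ W') : ext K W ≤ ext K W' :=
  ext_le fun _ hw => cast_mem (h hw)

/-- a vector over `K` as a combination of rational vectors with independent coefficients -/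
theorem exists_coord [Finite ι] (x : ι → K) :
    ∃ (N : ℕ) (c : Fin N → K) (y : Fin N → ι → ℚ),
      LinearIndependent ℚ c ∧ x = ∑ j, c j • cast K (y j) := by
  classical
  let T : Set K := Set.range x
  have hT : T.Finite := Set.finite_range _
  let E : Submodule ℚ K := Submodule.span ℚ T
  have : FiniteDimensional ℚ E := FiniteDimensional.span_of_finite ℚ hT
  let b := Module.finBasis ℚ E
  refine ⟨_, fun j => (b j : K), fun j i => b.repr ⟨x i, Submodule.subset_span ⟨i, rfl⟩⟩ j, ?_, ?_⟩
  · exact b.linearIndependent.map' E.subtype (Submodule.ker_subtype E)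
  · funext i
    rw [Finset.sum_apply]
    have h1 := b.sum_repr ⟨x i, Submodule.subset_span ⟨i, rfl⟩⟩
    have h2 := congrArg (fun z : E => (z : K)) h1
    simp only [AddSubmonoidClass.coe_finset_sum, SetLike.val_smul] at h2
    conv_lhs => rw [← h2]
    refine Finset.sum_congr rfl fun j _ => ?_
    rw [Pi.smul_apply, Rat.smul_def, smul_eq_mul, mul_comm]
    rfl

/-- a solution over `K` of a system of rational linear equations is a combination of rational
solutions -/
theorem mem_ext [Finite ι] {J : Type*} (E : J → (ι → K) →ₗ[K] K) (e : J → (ι → ℚ) → ℚ)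
    (h : ∀ j w, E j (cast K w) = (e j w : K)) {W : Submodule ℚ (ι → ℚ)}
    (hW : ∀ w, (∀ j, e j w = 0) → w ∈ W) {x : ι → K} (hx : ∀ j, E j x = 0) : x ∈ ext K W := by
  obtain ⟨N, c, y, hc, rfl⟩ := exists_coord x
  refine Submodule.sum_mem _ fun l _ => Submodule.smul_mem _ _ (cast_mem (hW _ fun j => ?_))
  have h1 := hx j
  simp only [map_sum, map_smul, h, smul_eq_mul] at h1
  have h2 : ∑ l, e j (y l) • c l = 0 := by
    rw [← h1]
    refine Finset.sum_congr rfl fun i _ => ?_
    rw [Rat.smul_def, mul_comm]
  exact Fintype.linearIndependent_iff.1 hc _ h2 l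

end rational

end Pool.Agent.Q50.CF
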