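import Pool.Agent.Q50.GS.Defs

/-!
# Rational forms of the ℓ-adic Lie algebras and of the spaces of Tate tensors: definitions
-/

namespace Pool.Agent.Q50.CF

open Pool.Agent.Q50.GS

variable {n : ℕ}

/-- The coefficients of a multilinear form on `K^n`. -/
def coeff {K κ : Type} [Field K] (φ : MultilinearMap K (fun _ : κ => Fin n → K) K)
    (I : κ → Fin n) : K :=
  φ fun k => Pi.single (I k) 1

/-- The entries of the matrix of an endomorphism of `K^n`. -/
def entries {K : Type} [Field K] (X : Module.End K (Fin n → K)) (p : Fin n × Fin n) : K :=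
  X (Pi.single p.2 1) p.1

/-- The extension of scalars to `K` of a space of vectors with rational coordinates. -/
def ext (K : Type) [Field K] {ι : Type} (W : Submodule ℚ (ι → ℚ)) : Submodule K (ι → K) :=
  Submodule.span K {x | ∃ w ∈ W, x = fun i => (w i : K)}

/-- The bilinear form with the rational matrix `ψ`. -/
def pairing {K : Type} [Field K] (ψ : Matrix (Fin n) (Fin n) ℚ) (u v : Fin n → K) : K :=
  ∑ i, ∑ j, (ψ i j : K) * u i * v j

/-- The endomorphism `X` is in the centre of the Lie algebra of the endomorphisms which kill all Tate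
tensors. -/
def InCentreOfLie {ℓ : ℕ} [Fact ℓ.Prime] {V : Type} [AddCommGroup V] [Module ℚ_[ℓ] V] {Γ : Type}
    [Group Γ] (ρ : Representation ℚ_[ℓ] Γ V) (χ : Γ →* ℚ_[ℓ]) (X : Module.End ℚ_[ℓ] V) : Prop :=
  InLie ρ χ X ∧ ∀ Y, InLie ρ χ Y → ∀ v, Y (X v) = X (Y v)

/-- The representations of `Γ` on `ℚ_ℓ^n`. -/
abbrev Rep (n ℓ : ℕ) [Fact ℓ.Prime] (Γ : Type) [Group Γ] : Type :=
  Representation ℚ_[ℓ] Γ (Fin n → ℚ_[ℓ])

/-- The characters of `Γ`. -/
abbrev Chr (ℓ : ℕ) [Fact ℓ.Prime] (Γ : Type) [Group Γ] : Type := Γ →* ℚ_[ℓ]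

/-- A continuous semisimple representation by similitudes of `ψ`, with the multiplier `χ`. -/
structure IsLadic {ℓ : ℕ} [Fact ℓ.Prime] {Γ : Type} [Group Γ] [TopologicalSpace Γ]
    (ρ : Rep n ℓ Γ) (χ : Chr ℓ Γ) (ψ : Matrix (Fin n) (Fin n) ℚ) : Prop where
  continuous : ∀ (v : Fin n → ℚ_[ℓ]) (f : Module.Dual ℚ_[ℓ] (Fin n → ℚ_[ℓ])),
    Continuous fun s => f (ρ s v)
  continuous_char : Continuous χ
  weil : ∀ s u v, pairing ψ (ρ s u) (ρ s v) = χ s * pairing ψ u v
  semisimple : IsSemisimple ρ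

/-- The `ℓ`-adic representations attached to a rational vector space `V = ℚ^n` with a nondegenerate
form `ψ`: for every prime `p l` of a family, a continuous semisimple representation of `Γ` on
`V ⊗ ℚ_ℓ` by similitudes of `ψ`. -/
structure LadicSystem (n : ℕ) (Γ : Type) [Group Γ] [TopologicalSpace Γ] where
  /-- the set of indices of the primes -/
  L : Type
  /-- the primes -/
  p : L → ℕ
  prime : ∀ l, Fact (p l).Prime
  /-- the representations -/
  ρ : ∀ l, Rep n (p l) Γ
  /-- the multipliers -/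
  χ : ∀ l, Chr (p l) Γ
  /-- the matrix of the form -/
  ψ : Matrix (Fin n) (Fin n) ℚ
  nondegenerate : ψ.det ≠ 0
  ladic : ∀ l, IsLadic (ρ l) (χ l) ψ

attribute [instance] LadicSystem.prime

namespace LadicSystem

variable {Γ : Type} [Group Γ] [TopologicalSpace Γ] (S : LadicSystem n Γ)

/-- The Tate tensors of degree `2 m` have a common rational form: there is a `ℚ`-vector space of
forms in `2 m` variables on `V` which spans, for every prime of the family, the space of the Tate
tensors of degree `2 m`. -/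
def CommonForms (m : ℕ) : Prop :=
  ∃ W : Submodule ℚ ((Fin m × Fin 2 → Fin n) → ℚ), ∀ l φ,
    IsTate (S.ρ l) (S.χ l) m φ ↔ coeff φ ∈ ext ℚ_[S.p l] W

/-- The `ℓ`-adic Lie algebras have a common rational form. -/
def CommonLie : Prop :=
  ∃ 𝔤 : Submodule ℚ (Fin n × Fin n → ℚ), ∀ l X,
    InLie (S.ρ l) (S.χ l) X ↔ entries X ∈ ext ℚ_[S.p l] 𝔤

/-- The centres of the `ℓ`-adic Lie algebras have a common rational form. -/
def CommonCentre : Prop :=
  ∃ 𝔷 : Submodule ℚ (Fin n × Fin n → ℚ), ∀ l X,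
    InCentreOfLie (S.ρ l) (S.χ l) X ↔ entries X ∈ ext ℚ_[S.p l] 𝔷

end LadicSystem

end Pool.Agent.Q50.CF
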