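import Pool.Agent.Q50.CF.Main

/-!
# A common rational form in degree four: one prime
-/

set_option linter.unusedSectionVars false
set_option maxHeartbeats 4000000
set_option synthInstance.maxHeartbeats 400000

namespace Pool.Agent.Q50.CF

open Module Pool.Agent.H204R3.SP Pool.Agent.H204R3.GP Pool.Agent.W516.KC Pool.Agent.W516.FT
  Pool.Agent.Q50.FP Pool.Agent.Q50.GS

section cast

variable {K : Type} [Field K] [CharZero K] {ι : Type}

theorem cast_zero' : cast K (0 : ι → ℚ) = 0 := by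
  funext i
  simp [cast]

theorem cast_add' (u v : ι → ℚ) : cast K (u + v) = cast K u + cast K v := by
  funext i
  simp [cast]

theorem cast_smul' (c : ℚ) (u : ι → ℚ) : cast K (c • u) = (c : K) • cast K u := by
  funext i
  simp [cast]

end cast

theorem brk {R : Type*} [Ring R] (Z Z' s s' : R) : Z * Z' - Z' * Z - (s * s' - s' * s) =
    ((Z - s) * (Z' - s') - (Z' - s') * (Z - s)) + (s * (Z' - s') - (Z' - s') * s) -
      (s' * (Z - s) - (Z - s) * s') := by noncomm_ring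

section single

variable {ℓ : ℕ} [hℓ : Fact ℓ.Prime] {n : ℕ} {Γ : Type} [Group Γ] [TopologicalSpace Γ]
  [IsTopologicalGroup Γ] [CompactSpace Γ] (ρ : Representation ℚ_[ℓ] Γ (Fin n → ℚ_[ℓ]))
  (χ : Γ →* ℚ_[ℓ])

theorem kills_four_iff {W : Submodule ℚ ((Fin 2 × Fin 2 → Fin n) → ℚ)}
    (hW : ∀ φ, GS.IsTate ρ χ 2 φ ↔ coeff φ ∈ ext ℚ_[ℓ] W) (Z : Module.End ℚ_[ℓ] (Fin n → ℚ_[ℓ])) :
    (∀ φ, GS.IsTate ρ χ 2 φ → Kills Z φ) ↔ en Z ∈ ext ℚ_[ℓ] (aQ W) := by
  rw [← kf_iff_aQ]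
  constructor
  · intro h w hw
    have h1 : GS.IsTate ρ χ 2 (mk (cast ℚ_[ℓ] w)) := (hW _).2 (by
      rw [coeff_mk]
      exact cast_mem hw)
    have h2 := h _ h1
    rw [kills_iff, coeff_mk] at h2
    exact h2
  · intro h φ hφ
    rw [kills_iff]
    exact kf_of_ext h ((hW φ).1 hφ)

variable (ω : (Fin n → ℚ_[ℓ]) →ₗ[ℚ_[ℓ]] (Fin n → ℚ_[ℓ]) →ₗ[ℚ_[ℓ]] ℚ_[ℓ])
  (hωρ : ∀ s u v, ω (ρ s u) (ρ s v) = χ s * ω u v) (hnd : ∀ u, (∀ v, ω u v = 0) → u = 0)
  (hρ : ∀ (v : Fin n → ℚ_[ℓ]) (f : Module.Dual ℚ_[ℓ] (Fin n → ℚ_[ℓ])),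
    Continuous fun s => f (ρ s v)) (hχ : Continuous χ)
  (hsemi : Semi (lieT ρ χ))

include hωρ in
theorem skew_of_four {Z : Module.End ℚ_[ℓ] (Fin n → ℚ_[ℓ])}
    (hZ : ∀ φ, GS.IsTate ρ χ 2 φ → Kills Z φ) : IsSkew ω Z := by
  have h1 : AlmostEquivariant ρ (1 : Module.End ℚ_[ℓ] (Fin n → ℚ_[ℓ])) :=
    ⟨⊤, inferInstance, fun s _ v => rfl⟩
  have h3 := kills_two ω 1 Z (hZ _ (two_tate ρ χ ω hωρ h1))
  simp only [Module.End.one_apply] at h3
  intro u v
  by_cases h : ∃ w x, ω w x ≠ 0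
  · obtain ⟨w, x, hwx⟩ := h
    have h4 := h3 w x w x
    have h5 : ω (Z w) x + ω w (Z x) = 0 := by
      have h6 : (2 * ω w x) * (ω (Z w) x + ω w (Z x)) = 0 := by linear_combination h4
      rcases mul_eq_zero.1 h6 with h7 | h7
      · exact absurd h7 (mul_ne_zero two_ne_zero hwx)
      · exact h7
    have h6 := h3 u v w x
    rw [h5, mul_zero, add_zero, mul_eq_zero, or_iff_left hwx] at h6
    exact h6
  · push Not at h
    rw [h, h, add_zero]

include hωρ hnd hρ hχ hsemi in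
theorem decomp_four {Z : Module.End ℚ_[ℓ] (Fin n → ℚ_[ℓ])}
    (hZ : ∀ φ, GS.IsTate ρ χ 2 φ → Kills Z φ) :
    ∃ s ∈ der (lieT ρ χ), InCentre (lieT ρ χ) (Z - s) := by
  have hsk := skew_of_four ρ χ ω hωρ hZ
  refine decomp (lieT ρ χ) hsemi (lieT_br _ _) ω hnd hsk
    (hZ _ (cas_tate ρ χ ω hωρ hsemi)) fun P hP => ?_
  have h1 : AlmostEquivariant ρ P := almost_of_comm ρ χ hρ hχ ω hωρ hnd hP
  have h3 := kills_two ω P Z (hZ _ (two_tate ρ χ ω hωρ h1))
  refine LinearMap.ext fun u => ?_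
  rw [← sub_eq_zero]
  apply hnd
  intro v
  by_cases h : ∃ w x, ω w x ≠ 0
  · obtain ⟨w, x, hwx⟩ := h
    have h4 := h3 u v w x
    have h5 := hsk w x
    rw [h5, mul_zero, add_zero, mul_eq_zero, or_iff_left hwx] at h4
    have h6 := hsk (P u) v
    rw [map_sub, LinearMap.sub_apply]
    change ω (Z (P u)) v - ω (P (Z u)) v = 0
    linear_combination h6 - h4
  · push Not at h
    exact h _ _

include hωρ hnd hρ hχ hsemi in
theorem bracket_four {Z Z' : Module.End ℚ_[ℓ] (Fin n → ℚ_[ℓ])}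
    (hZ : ∀ φ, GS.IsTate ρ χ 2 φ → Kills Z φ) (hZ' : ∀ φ, GS.IsTate ρ χ 2 φ → Kills Z' φ) :
    Z * Z' - Z' * Z ∈ der (lieT ρ χ) := by
  have hbr := lieT_br ρ χ
  obtain ⟨s, hs, hz⟩ := decomp_four ρ χ ω hωρ hnd hρ hχ hsemi hZ
  obtain ⟨s', hs', hz'⟩ := decomp_four ρ χ ω hωρ hnd hρ hχ hsemi hZ'
  have h1 := hz.2 _ hz'.1
  have h2 := hz.1 s' (der_sub _ hbr hs')
  have h3 := hz'.1 s (der_sub _ hbr hs)
  have h4 : Z * Z' - Z' * Z = s * s' - s' * s := by
    have e1 : Z * Z' - Z' * Z - (s * s' - s' * s) =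
        ((Z - s) * (Z' - s') - (Z' - s') * (Z - s)) + (s * (Z' - s') - (Z' - s') * s) -
          (s' * (Z - s) - (Z - s) * s') := brk Z Z' s s'
    rw [h1, h2, h3, sub_self, sub_self, sub_self, sub_zero, add_zero, sub_eq_zero] at e1
    exact e1
  rw [h4]
  exact der_br _ hbr _ hs _ hs'

include hωρ hnd hρ hχ hsemi in
/-- the derived algebra comes from the rational matrices which kill the rational forms of degree
four -/
theorem der_iff {W : Submodule ℚ ((Fin 2 × Fin 2 → Fin n) → ℚ)}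
    (hW : ∀ φ, GS.IsTate ρ χ 2 φ ↔ coeff φ ∈ ext ℚ_[ℓ] W) (Z : Module.End ℚ_[ℓ] (Fin n → ℚ_[ℓ])) :
    Z ∈ der (lieT ρ χ) ↔ en Z ∈ ext ℚ_[ℓ] (sQ (aQ W)) := by
  constructor
  · intro h
    have h1 : der (lieT ρ χ) ≤ (ext ℚ_[ℓ] (sQ (aQ W))).comap en.toLinearMap := by
      refine Submodule.span_le.2 ?_
      rintro _ ⟨X, hX, Y, hY, rfl⟩
      rw [SetLike.mem_coe, Submodule.mem_comap, LinearEquiv.coe_coe, en_br]
      exact br_mem_ext ((kills_four_iff ρ χ hW X).1 fun φ hφ => hX 2 φ hφ)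
        ((kills_four_iff ρ χ hW Y).1 fun φ hφ => hY 2 φ hφ)
    exact h1 h
  · intro h
    have h1 : ext ℚ_[ℓ] (sQ (aQ W)) ≤ (der (lieT ρ χ)).comap en.symm.toLinearMap := by
      refine ext_le fun z hz => ?_
      rw [Submodule.mem_comap, LinearEquiv.coe_coe]
      unfold sQ at hz
      induction hz using Submodule.span_induction with
      | mem z h =>
        obtain ⟨x, hx, y, hy, rfl⟩ := h
        have h2 : en.symm (cast ℚ_[ℓ] (br x y)) = en.symm (cast ℚ_[ℓ] x) * en.symm (cast ℚ_[ℓ] y) -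
            en.symm (cast ℚ_[ℓ] y) * en.symm (cast ℚ_[ℓ] x) := by
          apply en.injective
          rw [en_br, LinearEquiv.apply_symm_apply, LinearEquiv.apply_symm_apply,
            LinearEquiv.apply_symm_apply, cast_br]
        rw [h2]
        refine bracket_four ρ χ ω hωρ hnd hρ hχ hsemi ?_ ?_
        · refine (kills_four_iff ρ χ hW _).2 ?_
          rw [LinearEquiv.apply_symm_apply]
          exact cast_mem hx
        · refine (kills_four_iff ρ χ hW _).2 ?_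
          rw [LinearEquiv.apply_symm_apply]
          exact cast_mem hy
      | zero => rw [cast_zero', map_zero]; exact Submodule.zero_mem _
      | add u v _ _ hu hv => rw [cast_add', map_add]; exact Submodule.add_mem _ hu hv
      | smul c u _ hu => rw [cast_smul', map_smul]; exact Submodule.smul_mem _ _ hu
    have h2 := h1 h
    rwa [Submodule.mem_comap, LinearEquiv.coe_coe, LinearEquiv.symm_apply_apply] at h2

include hωρ hnd hρ hχ hsemi in
/-- the Lie algebra, if the centre has a rational form -/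
theorem lie_iff {W : Submodule ℚ ((Fin 2 × Fin 2 → Fin n) → ℚ)}
    (hW : ∀ φ, GS.IsTate ρ χ 2 φ ↔ coeff φ ∈ ext ℚ_[ℓ] W) {𝔷 : Submodule ℚ (Fin n × Fin n → ℚ)}
    (hz : ∀ Z, (Z ∈ lieT ρ χ ∧ ∀ X ∈ lieT ρ χ, X * Z = Z * X) ↔ en Z ∈ ext ℚ_[ℓ] 𝔷)
    (Z : Module.End ℚ_[ℓ] (Fin n → ℚ_[ℓ])) :
    Z ∈ lieT ρ χ ↔ en Z ∈ ext ℚ_[ℓ] (sQ (aQ W) ⊔ 𝔷) := by
  have hbr := lieT_br ρ χ
  have hder := der_iff ρ χ ω hωρ hnd hρ hχ hsemi hW
  constructor
  · intro h
    obtain ⟨s, hs, hc⟩ := exists_der_central (lieT ρ χ) hsemi hbr h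
    have h1 : en s ∈ ext ℚ_[ℓ] (sQ (aQ W) ⊔ 𝔷) := ext_mono le_sup_left ((hder s).1 hs)
    have h2 : en (Z - s) ∈ ext ℚ_[ℓ] (sQ (aQ W) ⊔ 𝔷) :=
      ext_mono le_sup_right ((hz (Z - s)).1 ⟨Submodule.sub_mem _ h (der_sub _ hbr hs), hc⟩)
    have h3 := Submodule.add_mem _ h1 h2
    rwa [← map_add, add_sub_cancel] at h3
  · intro h
    have h1 : ext ℚ_[ℓ] (sQ (aQ W) ⊔ 𝔷) ≤ (lieT ρ χ).comap en.symm.toLinearMap := by
      refine ext_le fun z hzz => ?_
      obtain ⟨u, hu, v, hv, rfl⟩ := Submodule.mem_sup.1 hzz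
      rw [Submodule.mem_comap, LinearEquiv.coe_coe]
      rw [cast_add', map_add]
      refine Submodule.add_mem _ ?_ ?_
      · refine der_sub _ hbr ((hder _).2 ?_)
        rw [LinearEquiv.apply_symm_apply]
        exact cast_mem hu
      · refine ((hz _).2 ?_).1
        rw [LinearEquiv.apply_symm_apply]
        exact cast_mem hv
    have h2 := h1 h
    rwa [Submodule.mem_comap, LinearEquiv.coe_coe, LinearEquiv.symm_apply_apply] at h2

include hρ hχ in
/-- the Tate forms, if the Lie algebra has a rational form -/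
theorem forms_iff {𝔤 : Submodule ℚ (Fin n × Fin n → ℚ)}
    (hg : ∀ Z, Z ∈ lieT ρ χ ↔ en Z ∈ ext ℚ_[ℓ] 𝔤) (m : ℕ)
    (φ : MultilinearMap ℚ_[ℓ] (fun _ : Fin m × Fin 2 => Fin n → ℚ_[ℓ]) ℚ_[ℓ]) :
    GS.IsTate ρ χ m φ ↔ coeff φ ∈ ext ℚ_[ℓ] (fQ (Fin m × Fin 2) 𝔤) := by
  rw [← kf_iff_fQ]
  constructor
  · intro h x hx
    have h1 : en.symm (cast ℚ_[ℓ] x) ∈ lieT ρ χ := (hg _).2 (by
      rw [LinearEquiv.apply_symm_apply]
      exact cast_mem hx)
    have h2 := h1 m φ h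
    rw [kills_iff] at h2
    change KF (en (en.symm (cast ℚ_[ℓ] x))) (coeff φ) at h2
    rwa [LinearEquiv.apply_symm_apply] at h2
  · intro h
    refine tate_of_kills ρ χ hρ hχ φ fun X hX => ?_
    rw [kills_iff]
    exact kf_of_ext' h ((hg X).1 hX)

end single

section all

variable {n : ℕ}

/-- the bilinear form -/
noncomputable def om (K : Type) [Field K] (ψ : Matrix (Fin n) (Fin n) ℚ) :
    (Fin n → K) →ₗ[K] (Fin n → K) →ₗ[K] K :=
  Matrix.toBilin' (ψ.map fun q => (q : K))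

theorem om_apply (K : Type) [Field K] (ψ : Matrix (Fin n) (Fin n) ℚ) (u v : Fin n → K) :
    om K ψ u v = pairing ψ u v := by
  unfold om pairing
  rw [Matrix.toBilin'_apply]
  refine Finset.sum_congr rfl fun i _ => Finset.sum_congr rfl fun j _ => ?_
  rw [Matrix.map_apply]
  ring

theorem om_nd (K : Type) [Field K] [CharZero K] {ψ : Matrix (Fin n) (Fin n) ℚ} (hψ : ψ.det ≠ 0)
    (u : Fin n → K) (h : ∀ v, om K ψ u v = 0) : u = 0 := by
  have h1 : (ψ.map fun q => (q : K)).det ≠ 0 := by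
    have h2 : (ψ.map fun q => (q : K)) = (algebraMap ℚ K).mapMatrix ψ := by
      ext i j
      simp
    rw [h2, ← RingHom.map_det]
    simpa using hψ
  refine (Matrix.nondegenerate_of_det_ne_zero h1).eq_zero_of_ortho fun w => ?_
  have h2 := h w
  unfold om at h2
  rwa [Matrix.toBilin'_apply'] at h2

variable {Γ : Type} [Group Γ] [TopologicalSpace Γ] [IsTopologicalGroup Γ] [CompactSpace Γ]
  (S : LadicSystem n Γ)

/-- the Lie algebras have a common rational form if the forms of degree four do -/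
theorem commonLie_of_four (hc : S.CommonCentre) (h4 : S.CommonForms 2) : S.CommonLie := by
  obtain ⟨W, hW⟩ := h4
  obtain ⟨𝔷, h𝔷⟩ := hc
  refine ⟨sQ (aQ W) ⊔ 𝔷, fun l X => ?_⟩
  have h := S.ladic l
  have hωρ : ∀ s u v, om ℚ_[S.p l] S.ψ (S.ρ l s u) (S.ρ l s v) =
      S.χ l s * om ℚ_[S.p l] S.ψ u v := by
    intro s u v
    rw [om_apply, om_apply]
    exact h.weil s u v
  have hnd := om_nd ℚ_[S.p l] S.nondegenerate
  have hsemi := semi_of (S.ρ l) (S.χ l) (om ℚ_[S.p l] S.ψ) hωρ hnd h.semisimple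
  refine lie_iff (S.ρ l) (S.χ l) (om ℚ_[S.p l] S.ψ) hωρ hnd h.continuous h.continuous_char
    hsemi (hW l) (fun Z => ?_) X
  refine Iff.trans ?_ (h𝔷 l Z)
  refine and_congr Iff.rfl ⟨fun h Y hY v => ?_, fun h Y hY => ?_⟩
  · exact congrArg (fun f : Module.End ℚ_[S.p l] (Fin n → ℚ_[S.p l]) => f v) (h Y hY)
  · exact LinearMap.ext fun v => h Y hY v

/-- the forms have a common rational form if the Lie algebras do -/
theorem commonForms_of_lie (hl : S.CommonLie) (m : ℕ) : S.CommonForms m := by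
  obtain ⟨𝔤, hg⟩ := hl
  refine ⟨fQ (Fin m × Fin 2) 𝔤, fun l φ => ?_⟩
  have h := S.ladic l
  exact forms_iff (S.ρ l) (S.χ l) h.continuous h.continuous_char (hg l) m φ

theorem main (hc : S.CommonCentre) :
    List.TFAE [S.CommonLie, S.CommonForms 2, ∀ m, S.CommonForms m] := by
  tfae_have 2 → 1 := commonLie_of_four S hc
  tfae_have 1 → 3 := commonForms_of_lie S
  tfae_have 3 → 2 := fun h => h 2
  tfae_finish

end all

end Pool.Agent.Q50.CF
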