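import Pool.Agent.Q50.CF.Alg
import Pool.Agent.Q50.GS.Main

/-!
# A common rational form in degree four
-/

set_option linter.unusedSectionVars false
set_option maxHeartbeats 4000000
set_option synthInstance.maxHeartbeats 400000

namespace Pool.Agent.Q50.CF

open Module Pool.Agent.H204R3.SP Pool.Agent.H204R3.GP Pool.Agent.W516.KC Pool.Agent.W516.FT
  Pool.Agent.Q50.FP Pool.Agent.Q50.GS

section coordinates

variable {K : Type} [Field K] {n : ℕ}

theorem entries_eq (X : Module.End K (Fin n → K)) :
    entries X = fun p => LinearMap.toMatrix' X p.1 p.2 := by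
  funext p
  rw [LinearMap.toMatrix'_apply]
  rfl

/-- the entries of an endomorphism -/
noncomputable def en : Module.End K (Fin n → K) ≃ₗ[K] (Fin n × Fin n → K) where
  toFun X := entries X
  map_add' X Y := rfl
  map_smul' c X := rfl
  invFun x := Matrix.toLin' (Matrix.of fun i j => x (i, j))
  left_inv X := by
    change Matrix.toLin' (Matrix.of fun i j => entries X (i, j)) = X
    rw [entries_eq]
    change Matrix.toLin' (LinearMap.toMatrix' X) = X
    exact Matrix.toLin'_toMatrix' X
  right_inv x := by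
    change entries (Matrix.toLin' (Matrix.of fun i j => x (i, j))) = x
    rw [entries_eq]
    funext p
    rw [LinearMap.toMatrix'_toLin']
    rfl

theorem en_apply (X : Module.End K (Fin n → K)) : en X = entries X := rfl

/-- the bracket in coordinates -/
def br (x y : Fin n × Fin n → K) : Fin n × Fin n → K := fun p =>
  ∑ k, (x (p.1, k) * y (k, p.2) - y (p.1, k) * x (k, p.2))

theorem en_br (X Y : Module.End K (Fin n → K)) : en (X * Y - Y * X) = br (en X) (en Y) := by
  funext p
  rw [en_apply, en_apply, en_apply, entries_eq, entries_eq, entries_eq]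
  change LinearMap.toMatrix' (X * Y - Y * X) p.1 p.2 = _
  rw [map_sub]
  have h1 : ∀ A B : Module.End K (Fin n → K), LinearMap.toMatrix' (A * B) =
      LinearMap.toMatrix' A * LinearMap.toMatrix' B := fun A B => LinearMap.toMatrix'_mul A B
  rw [h1, h1, Matrix.sub_apply, Matrix.mul_apply, Matrix.mul_apply, ← Finset.sum_sub_distrib]
  rfl

theorem br_add_left (x x' y : Fin n × Fin n → K) : br (x + x') y = br x y + br x' y := by
  funext p
  simp only [br, Pi.add_apply, ← Finset.sum_add_distrib]
  exact Finset.sum_congr rfl fun k _ => by ring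

theorem br_smul_left (c : K) (x y : Fin n × Fin n → K) : br (c • x) y = c • br x y := by
  funext p
  simp only [br, Pi.smul_apply, smul_eq_mul, Finset.mul_sum]
  exact Finset.sum_congr rfl fun k _ => by ring

theorem br_add_right (x y y' : Fin n × Fin n → K) : br x (y + y') = br x y + br x y' := by
  funext p
  simp only [br, Pi.add_apply, ← Finset.sum_add_distrib]
  exact Finset.sum_congr rfl fun k _ => by ring

theorem br_smul_right (c : K) (x y : Fin n × Fin n → K) : br x (c • y) = c • br x y := by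
  funext p
  simp only [br, Pi.smul_apply, smul_eq_mul, Finset.mul_sum]
  exact Finset.sum_congr rfl fun k _ => by ring

theorem br_zero_left (y : Fin n × Fin n → K) : br 0 y = 0 := by
  funext p
  simp [br]

theorem br_zero_right (y : Fin n × Fin n → K) : br y 0 = 0 := by
  funext p
  simp [br]

end coordinates

section rational

variable {K : Type} [Field K] [CharZero K] {n : ℕ}

theorem cast_br (x y : Fin n × Fin n → ℚ) : cast K (br x y) = br (cast K x) (cast K y) := by
  funext p
  simp only [cast, br]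
  push_cast
  rfl

/-- the brackets of a rational space -/
def sQ (A : Submodule ℚ (Fin n × Fin n → ℚ)) : Submodule ℚ (Fin n × Fin n → ℚ) :=
  Submodule.span ℚ {z | ∃ x ∈ A, ∃ y ∈ A, z = br x y}

theorem br_mem_ext {A : Submodule ℚ (Fin n × Fin n → ℚ)} {x y : Fin n × Fin n → K}
    (hx : x ∈ ext K A) (hy : y ∈ ext K A) : br x y ∈ ext K (sQ A) := by
  unfold ext at hx
  induction hx using Submodule.span_induction with
  | mem x h =>
    obtain ⟨a, ha, rfl⟩ := h
    unfold ext at hy
    induction hy using Submodule.span_induction with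
    | mem y h =>
      obtain ⟨b, hb, rfl⟩ := h
      have h1 := cast_br (K := K) a b
      change br (cast K a) (cast K b) ∈ _
      rw [← h1]
      exact cast_mem (Submodule.subset_span ⟨a, ha, b, hb, rfl⟩)
    | zero => rw [br_zero_right]; exact Submodule.zero_mem _
    | add u v _ _ hu hv => rw [br_add_right]; exact Submodule.add_mem _ hu hv
    | smul c u _ hu => rw [br_smul_right]; exact Submodule.smul_mem _ _ hu
  | zero => rw [br_zero_left]; exact Submodule.zero_mem _
  | add u v _ _ hu hv => rw [br_add_left]; exact Submodule.add_mem _ hu hv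
  | smul c u _ hu => rw [br_smul_left]; exact Submodule.smul_mem _ _ hu

variable {κ : Type} [Fintype κ] [DecidableEq κ]

/-- the rational matrices which kill the forms of `W` -/
noncomputable def aQ (W : Submodule ℚ ((κ → Fin n) → ℚ)) : Submodule ℚ (Fin n × Fin n → ℚ) :=
  ⨅ w : W, ⨅ J : κ → Fin n, LinearMap.ker (eqx (w : (κ → Fin n) → ℚ) J)

theorem mem_aQ {W : Submodule ℚ ((κ → Fin n) → ℚ)} {x : Fin n × Fin n → ℚ} :
    x ∈ aQ W ↔ ∀ w ∈ W, KF x w := by
  unfold aQ
  simp only [Submodule.mem_iInf, LinearMap.mem_ker]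
  constructor
  · intro h w hw
    exact kf_eqx.2 fun J => h ⟨w, hw⟩ J
  · intro h w J
    exact kf_eqx.1 (h w w.2) J

/-- the rational forms which are killed by the matrices of `A` -/
noncomputable def fQ (κ : Type) [Fintype κ] [DecidableEq κ]
    (A : Submodule ℚ (Fin n × Fin n → ℚ)) : Submodule ℚ ((κ → Fin n) → ℚ) :=
  ⨅ x : A, ⨅ J : κ → Fin n, LinearMap.ker (eqf (x : Fin n × Fin n → ℚ) J)

theorem mem_fQ {A : Submodule ℚ (Fin n × Fin n → ℚ)} {f : (κ → Fin n) → ℚ} :
    f ∈ fQ κ A ↔ ∀ x ∈ A, KF x f := by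
  unfold fQ
  simp only [Submodule.mem_iInf, LinearMap.mem_ker]
  constructor
  · intro h w hw
    exact kf_eqf.2 fun J => h ⟨w, hw⟩ J
  · intro h w J
    exact kf_eqf.1 (h w w.2) J

theorem eqx_cast (f : (κ → Fin n) → ℚ) (J : κ → Fin n) (x : Fin n × Fin n → ℚ) :
    eqx (cast K f) J (cast K x) = ((eqx f J x : ℚ) : K) := by
  rw [eqx_apply, eqx_apply]
  simp only [cast]
  push_cast
  rfl

theorem eqf_cast (f : (κ → Fin n) → ℚ) (J : κ → Fin n) (x : Fin n × Fin n → ℚ) :
    eqf (cast K x) J (cast K f) = ((eqf x J f : ℚ) : K) := by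
  rw [eqf_apply, eqf_apply]
  simp only [cast]
  push_cast
  rfl

theorem kf_cast {f : (κ → Fin n) → ℚ} {x : Fin n × Fin n → ℚ} (h : KF x f) :
    KF (cast K x) (cast K f) := by
  rw [kf_eqx] at h ⊢
  intro J
  rw [eqx_cast, h J, Rat.cast_zero]

/-- the matrices which kill rational forms -/
theorem kf_iff_aQ (W : Submodule ℚ ((κ → Fin n) → ℚ)) (x : Fin n × Fin n → K) :
    (∀ w ∈ W, KF x (cast K w)) ↔ x ∈ ext K (aQ W) := by
  constructor
  · intro h
    refine mem_ext (J := W × (κ → Fin n))
      (fun p => eqx (cast K (p.1 : (κ → Fin n) → ℚ)) p.2)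
      (fun p => eqx (p.1 : (κ → Fin n) → ℚ) p.2) (fun p w => eqx_cast _ _ _) (fun w hw => ?_)
      fun p => ?_
    · exact mem_aQ.2 fun v hv => kf_eqx.2 fun J => hw (⟨v, hv⟩, J)
    · exact kf_eqx.1 (h p.1 p.1.2) p.2
  · intro h w hw
    have h1 : ext K (aQ W) ≤ ⨅ J : κ → Fin n, LinearMap.ker (eqx (cast K w) J) := by
      refine ext_le fun y hy => ?_
      simp only [Submodule.mem_iInf, LinearMap.mem_ker]
      exact kf_eqx.1 (kf_cast (mem_aQ.1 hy w hw))
    have h2 := h1 h
    simp only [Submodule.mem_iInf, LinearMap.mem_ker] at h2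
    exact kf_eqx.2 h2

/-- the forms which are killed by rational matrices -/
theorem kf_iff_fQ (A : Submodule ℚ (Fin n × Fin n → ℚ)) (f : (κ → Fin n) → K) :
    (∀ x ∈ A, KF (cast K x) f) ↔ f ∈ ext K (fQ κ A) := by
  constructor
  · intro h
    refine mem_ext (J := A × (κ → Fin n))
      (fun p => eqf (cast K (p.1 : Fin n × Fin n → ℚ)) p.2)
      (fun p => eqf (p.1 : Fin n × Fin n → ℚ) p.2) (fun p w => eqf_cast _ _ _) (fun w hw => ?_)
      fun p => ?_
    · exact mem_fQ.2 fun v hv => kf_eqf.2 fun J => hw (⟨v, hv⟩, J)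
    · exact kf_eqf.1 (h p.1 p.1.2) p.2
  · intro h x hx
    have h1 : ext K (fQ κ A) ≤ ⨅ J : κ → Fin n, LinearMap.ker (eqf (cast K x) J) := by
      refine ext_le fun y hy => ?_
      simp only [Submodule.mem_iInf, LinearMap.mem_ker]
      exact kf_eqf.1 (kf_cast (mem_fQ.1 hy x hx))
    have h2 := h1 h
    simp only [Submodule.mem_iInf, LinearMap.mem_ker] at h2
    exact kf_eqf.2 h2

/-- a matrix which kills the rational forms of `W` kills their combinations -/
theorem kf_of_ext {W : Submodule ℚ ((κ → Fin n) → ℚ)} {x : Fin n × Fin n → K}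
    (h : ∀ w ∈ W, KF x (cast K w)) {f : (κ → Fin n) → K} (hf : f ∈ ext K W) : KF x f := by
  have h1 : ext K W ≤ ⨅ J : κ → Fin n, LinearMap.ker (eqf x J) := by
    refine ext_le fun y hy => ?_
    simp only [Submodule.mem_iInf, LinearMap.mem_ker]
    exact kf_eqf.1 (h y hy)
  have h2 := h1 hf
  simp only [Submodule.mem_iInf, LinearMap.mem_ker] at h2
  exact kf_eqf.2 h2

/-- a form which is killed by the rational matrices of `A` is killed by their combinations -/
theorem kf_of_ext' {A : Submodule ℚ (Fin n × Fin n → ℚ)} {f : (κ → Fin n) → K}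
    (h : ∀ x ∈ A, KF (cast K x) f) {x : Fin n × Fin n → K} (hx : x ∈ ext K A) : KF x f := by
  have h1 : ext K A ≤ ⨅ J : κ → Fin n, LinearMap.ker (eqx f J) := by
    refine ext_le fun y hy => ?_
    simp only [Submodule.mem_iInf, LinearMap.mem_ker]
    exact kf_eqx.1 (h y hy)
  have h2 := h1 hx
  simp only [Submodule.mem_iInf, LinearMap.mem_ker] at h2
  exact kf_eqx.2 h2

end rational

end Pool.Agent.Q50.CF
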